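import Pool.Agent.Lib.ZpIndex.Chains

/-!
Actions of `ZMod p` on list chains, the operators `tau`, `sigma`, and their exactness for free
actions with a sign function.
-/

namespace Pool.Agent.Lib.ZpIndex

open Finsupp

variable {p : ℕ} [NeZero p] {A B : Type}

/-- an action of `ZMod p` given explicitly -/
structure Act (p : ℕ) (A : Type) where
  act : ZMod p → A → A
  zero : ∀ a, act 0 a = a
  add : ∀ s t a, act (s + t) a = act s (act t a)

namespace Act

variable (X : Act p A)

omit [NeZero p] in
theorem inj (s : ZMod p) : Function.Injective (X.act s) := by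
  intro a b h
  have := congrArg (X.act (-s)) h
  rwa [← X.add, ← X.add, neg_add_cancel, X.zero, X.zero] at this

/-- action on chains -/
noncomputable def T (s : ZMod p) : Ch (ZMod p) A →ₗ[ZMod p] Ch (ZMod p) A := cmap (X.act s)

omit [NeZero p] in
theorem T_zero (c : Ch (ZMod p) A) : X.T 0 c = c := by
  have h : X.act 0 = id := funext X.zero
  have := map_eq' (X.T 0) LinearMap.id (fun l => by simp [T, h]) c
  simpa using this

omit [NeZero p] in
theorem T_add (s t : ZMod p) (c : Ch (ZMod p) A) : X.T (s + t) c = X.T s (X.T t c) := by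
  have h : X.act (s + t) = X.act s ∘ X.act t := funext (X.add s t)
  simp only [T, cmap_cmap, h]

/-- `tau = T - 1` -/
noncomputable def tau : Ch (ZMod p) A →ₗ[ZMod p] Ch (ZMod p) A := X.T 1 - LinearMap.id

/-- `sigma` is the norm element -/
noncomputable def sigma : Ch (ZMod p) A →ₗ[ZMod p] Ch (ZMod p) A := ∑ s : ZMod p, X.T s

omit [NeZero p] in
theorem tau_apply (c : Ch (ZMod p) A) : X.tau c = X.T 1 c - c := rfl

theorem sigma_apply (c : Ch (ZMod p) A) : X.sigma c = ∑ s : ZMod p, X.T s c := by
  simp [sigma, LinearMap.sum_apply]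

theorem sigma_T (t : ZMod p) (c : Ch (ZMod p) A) : X.sigma (X.T t c) = X.sigma c := by
  simp only [sigma_apply, ← T_add]
  exact Equiv.sum_comp (Equiv.addRight t) (fun s => X.T s c)

theorem T_sigma (t : ZMod p) (c : Ch (ZMod p) A) : X.T t (X.sigma c) = X.sigma c := by
  simp only [sigma_apply, map_sum, ← T_add]
  exact Equiv.sum_comp (Equiv.addLeft t) (fun s => X.T s c)

/-- alternating operators -/
noncomputable def θ (k : ℕ) : Ch (ZMod p) A →ₗ[ZMod p] Ch (ZMod p) A :=
  if Even k then X.tau else X.sigma

theorem θ_add_two (k : ℕ) : X.θ (k + 2) = X.θ k := by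
  simp [θ, Nat.even_add]

theorem θ_θ (k : ℕ) (c : Ch (ZMod p) A) : X.θ (k + 1) (X.θ k c) = 0 := by
  by_cases h : Even k
  · have h' : ¬ Even (k + 1) := by simp [Nat.even_add_one, h]
    simp [θ, h, h', tau_apply, sigma_T]
  · have h' : Even (k + 1) := by simp [Nat.even_add_one, h]
    simp [θ, h, h', tau_apply, T_sigma]

/-- a linear map commuting with the actions on a submodule commutes with `θ` -/
theorem comm_θ (Y : Act p B) (f : Ch (ZMod p) A →ₗ[ZMod p] Ch (ZMod p) B) (c : Ch (ZMod p) A)
    (h : ∀ s, f (X.T s c) = Y.T s (f c)) (k : ℕ) : f (X.θ k c) = Y.θ k (f c) := by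
  by_cases hk : Even k
  · simp [θ, hk, tau_apply, h]
  · simp [θ, hk, sigma_apply, h]

theorem θ_mem {P : List A → Prop} (hP : ∀ s l, P l → P (l.map (X.act s))) (k : ℕ)
    {c : Ch (ZMod p) A} (hc : c ∈ Supp (ZMod p) P) : X.θ k c ∈ Supp (ZMod p) P := by
  have hT : ∀ s, X.T s c ∈ Supp (ZMod p) P := fun s =>
    map_mem _ _ (fun l hl => by rw [T, cmap_single]; exact single_mem (hP s l hl)) hc
  by_cases hk : Even k
  · simp only [θ, hk, if_true, tau_apply]
    exact Submodule.sub_mem _ (hT 1) hc
  · simp only [θ, hk, if_false, sigma_apply]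
    exact Submodule.sum_mem _ fun s _ => hT s

theorem sigma_nil {c : Ch (ZMod p) A} (hc : c ∈ Supp (ZMod p) (fun l => l.length = 0)) :
    X.sigma c = 0 := by
  refine map_eq X.sigma 0 (fun l hl => ?_) hc
  have : l = [] := List.length_eq_zero_iff.1 hl
  subst this
  simp only [sigma_apply, T, cmap_single, List.map_nil, Finset.sum_const, Finset.card_univ,
    ZMod.card, LinearMap.zero_apply]
  rw [← Nat.cast_smul_eq_nsmul (ZMod p), ZMod.natCast_self, zero_smul]

section free

variable (sg : A → ZMod p)

/-- sign of a list: the sign of its head -/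
def sgL : List A → ZMod p
  | [] => 0
  | a :: _ => sg a

/-- keep the lists of a given sign -/
noncomputable def rho (s : ZMod p) : Ch (ZMod p) A →ₗ[ZMod p] Ch (ZMod p) A :=
  Finsupp.linearCombination _ (fun l => if sgL sg l = s then single l 1 else 0)

omit [NeZero p] in
theorem rho_single (s : ZMod p) (l : List A) :
    rho sg s (single l 1) = if sgL sg l = s then single l 1 else 0 := by
  simp [rho]

theorem sum_rho (c : Ch (ZMod p) A) : ∑ s, rho sg s c = c := by
  have := map_eq' (∑ s, rho sg s) LinearMap.id (fun l => by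
    simp [LinearMap.sum_apply, rho_single]) c
  simpa [LinearMap.sum_apply] using this

omit [NeZero p] in
theorem rho_mem {P : List A → Prop} (s : ZMod p) {c : Ch (ZMod p) A} (hc : c ∈ Supp (ZMod p) P) :
    rho sg s c ∈ Supp (ZMod p) P := by
  refine map_mem _ _ (fun l hl => ?_) hc
  rw [rho_single]
  split_ifs
  · exact single_mem hl
  · exact Submodule.zero_mem _

variable {sg} (hsg : ∀ s a, sg (X.act s a) = sg a + s)
include hsg

omit [NeZero p] in
theorem sgL_map (s : ZMod p) {j : ℕ} {l : List A} (hl : l.length = j + 1) :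
    sgL sg (l.map (X.act s)) = sgL sg l + s := by
  cases l with
  | nil => simp at hl
  | cons a l => simp [sgL, hsg]

theorem exact_tau {j : ℕ} {c : Ch (ZMod p) A}
    (hc : c ∈ Supp (ZMod p) (fun l => l.length = j + 1)) (h : X.tau c = 0) :
    ∃ e ∈ Supp (ZMod p) (fun l : List A => l.length = j + 1), c = X.sigma e := by
  refine ⟨rho sg 0 c, rho_mem sg 0 hc, ?_⟩
  have h1 : X.T 1 c = c := by rwa [tau_apply, sub_eq_zero] at h
  have h2 : ∀ n : ℕ, X.T n c = c := by
    intro n
    induction n with
    | zero => simp [T_zero]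
    | succ n ih => rw [Nat.cast_succ, T_add, h1, ih]
  have h3 : ∀ s, X.T s c = c := fun s => by
    rw [← ZMod.natCast_zmod_val s]; exact h2 _
  have h4 : ∀ s, X.T s (rho sg 0 c) = rho sg s (X.T s c) := fun s => by
    refine map_eq (X.T s ∘ₗ rho sg 0) (rho sg s ∘ₗ X.T s) (fun l hl => ?_) hc
    simp only [LinearMap.comp_apply, T, cmap_single, rho_single, X.sgL_map hsg s hl]
    by_cases h0 : sgL sg l = 0
    · simp [h0]
    · simp [h0]
  rw [sigma_apply]
  simp only [h4, h3, sum_rho]

theorem exact_sigma {j : ℕ} {c : Ch (ZMod p) A}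
    (hc : c ∈ Supp (ZMod p) (fun l => l.length = j + 1)) (h : X.sigma c = 0) :
    ∃ e ∈ Supp (ZMod p) (fun l : List A => l.length = j + 1), c = X.tau e := by
  let hh : Ch (ZMod p) A →ₗ[ZMod p] Ch (ZMod p) A :=
    Finsupp.linearCombination _ (fun l => ∑ i ∈ Finset.range (sgL sg l).val,
      X.T (i - sgL sg l) (single l 1))
  have hhs : ∀ l, hh (single l 1) = ∑ i ∈ Finset.range (sgL sg l).val,
      X.T (i - sgL sg l) (single l 1) := fun l => by simp [hh]
  refine ⟨hh c, ?_, ?_⟩
  · refine map_mem _ _ (fun l hl => ?_) hc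
    rw [hhs]
    refine Submodule.sum_mem _ fun i _ => ?_
    rw [T, cmap_single]
    exact single_mem (by simpa using hl)
  · have key : (X.tau ∘ₗ hh + rho sg 0 ∘ₗ X.sigma) c = LinearMap.id (R := ZMod p) c := by
      refine map_eq _ _ (fun l hl => ?_) hc
      simp only [LinearMap.add_apply, LinearMap.comp_apply, LinearMap.id_apply, hhs, map_sum,
        tau_apply, sigma_apply]
      have e1 : ∑ i ∈ Finset.range (sgL sg l).val,
          (X.T 1 (X.T (i - sgL sg l) (single l 1)) - X.T (i - sgL sg l) (single l 1)) =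
          single l 1 - X.T (-sgL sg l) (single l 1) := by
        have := Finset.sum_range_sub
          (fun i : ℕ => X.T ((i : ZMod p) - sgL sg l) (single l (1 : ZMod p))) (sgL sg l).val
        simp only [ZMod.natCast_zmod_val, sub_self, T_zero, Nat.cast_zero, zero_sub] at this
        rw [← this]
        refine Finset.sum_congr rfl fun i _ => ?_
        rw [← T_add]
        congr 3
        push_cast
        ring
      have e2 : ∑ s : ZMod p, rho sg 0 (X.T s (single l 1)) = X.T (-sgL sg l) (single l 1) := by
        rw [Finset.sum_eq_single (-sgL sg l)]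
        · rw [T, cmap_single, rho_single, X.sgL_map hsg _ hl]
          simp
        · intro s _ hs
          rw [T, cmap_single, rho_single, X.sgL_map hsg _ hl, if_neg]
          intro h0
          exact hs (eq_neg_of_add_eq_zero_right h0)
        · simp
      rw [e1, e2]
      simp
    simp only [LinearMap.add_apply, LinearMap.comp_apply, h, map_zero, add_zero,
      LinearMap.id_apply] at key
    exact key.symm

/-- Algebraic Borsuk-Ulam theorem for a free action with a sign function. -/
theorem no_system (b : ℕ → Ch (ZMod p) A) (n : ℕ)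
    (hb : ∀ k, b k ∈ Supp (ZMod p) (fun l => l.length = k + 1))
    (hbd : ∀ k, k < n → bd (b (k + 1)) = X.θ k (b k))
    (hn : nrm (b n) = 0) : nrm (bd (b 0)) = 0 := by
  have hTn : ∀ s c, nrm (X.T s c) = X.T s (nrm c) := fun s c => nrm_cmap _ (X.inj s) c
  have hTb : ∀ s c, bd (X.T s c) = X.T s (bd c) := fun s c => (cmap_bd _ c).symm
  have := descent (nrm ∘ₗ bd) X.θ (fun k => Supp (ZMod p) (fun l : List A => l.length = k))
    (fun x => by simp [nrm_bd_nrm, bd_bd]) X.θ_add_two
    (fun k x => X.comm_θ X _ x (fun s => by simp [hTn, hTb]) k)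
    (fun k x hx => nrm_mem (bd_length hx))
    (fun k j x hx h => by
      by_cases hk : Even k
      · have h' : ¬ Even (k + 1) := by simp [Nat.even_add_one, hk]
        simp only [θ, hk, h', if_true, if_false] at h ⊢
        exact X.exact_tau hsg hx h
      · have h' : Even (k + 1) := by simp [Nat.even_add_one, hk]
        simp only [θ, hk, h', if_true, if_false] at h ⊢
        exact X.exact_sigma hsg hx h)
    (fun x hx => by
      have : X.θ 1 = X.sigma := by simp [θ]
      rw [this]
      exact X.sigma_nil hx)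
    (fun k => nrm (b k)) n (fun k => nrm_mem (hb k))
    (fun k hk => by
      simp only [LinearMap.comp_apply, nrm_bd_nrm, hbd k hk]
      exact X.comm_θ X nrm _ (fun s => hTn s _) k) hn
  simpa [nrm_bd_nrm] using this

end free

end Act

end Pool.Agent.Lib.ZpIndex
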