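import Pool.Agent.Lib.ZpIndex.Action

/-!
The genus (covering number by wandering open sets) of subsets of `ZMod p → ℝ` under the shift,
and the Borsuk-Ulam theorem for the boundary of the simplex.
-/

namespace Pool.Agent.Lib.ZpIndex

open Finsupp

variable {p : ℕ}

/-- the shift on functions on `ZMod p` -/
def sh (s : ZMod p) (y : ZMod p → ℝ) : ZMod p → ℝ := fun j => y (j + s)

theorem sh_zero (y : ZMod p → ℝ) : sh 0 y = y := by
  funext j; simp [sh]

theorem sh_add (s t : ZMod p) (y : ZMod p → ℝ) : sh (s + t) y = sh s (sh t y) := by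
  funext j; simp [sh, add_assoc]

theorem continuous_sh (s : ZMod p) : Continuous (sh s) :=
  continuous_pi fun j => continuous_apply (j + s)

/-- the shift action -/
def shAct (p : ℕ) : Act p (ZMod p → ℝ) := ⟨sh, sh_zero, sh_add⟩

/-- `S` is covered by the translates of `m` wandering open sets -/
def Cov (m : ℕ) (S : Set (ZMod p → ℝ)) : Prop :=
  ∃ V : ℕ → Set (ZMod p → ℝ), (∀ i, IsOpen (V i)) ∧
    (∀ i y s, y ∈ V i → sh s y ∈ V i → s = 0) ∧ ∀ y ∈ S, ∃ i < m, ∃ s, sh s y ∈ V i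

theorem Cov.mono {m n : ℕ} {S S' : Set (ZMod p → ℝ)} (h : Cov m S) (hS : S' ⊆ S) (hm : m ≤ n) :
    Cov n S' := by
  obtain ⟨V, h1, h2, h3⟩ := h
  refine ⟨V, h1, h2, fun y hy => ?_⟩
  obtain ⟨i, hi, s, hs⟩ := h3 y (hS hy)
  exact ⟨i, hi.trans_le hm, s, hs⟩

theorem cov_empty : Cov 0 (∅ : Set (ZMod p → ℝ)) :=
  ⟨fun _ => ∅, fun _ => isOpen_empty, fun _ _ _ h => h.elim, fun _ h => h.elim⟩

theorem Cov.union {m n : ℕ} {S S' : Set (ZMod p → ℝ)} (h : Cov m S) (h' : Cov n S') :
    Cov (m + n) (S ∪ S') := by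
  obtain ⟨V, h1, h2, h3⟩ := h
  obtain ⟨W, g1, g2, g3⟩ := h'
  refine ⟨fun i => if i < m then V i else W (i - m), fun i => ?_, fun i y s => ?_, ?_⟩
  · dsimp only
    split_ifs
    · exact h1 _
    · exact g1 _
  · dsimp only
    split_ifs
    · exact h2 _ _ _
    · exact g2 _ _ _
  · rintro y (hy | hy)
    · obtain ⟨i, hi, s, hs⟩ := h3 y hy
      exact ⟨i, by omega, s, by simpa [hi] using hs⟩
    · obtain ⟨i, hi, s, hs⟩ := g3 y hy
      exact ⟨m + i, by omega, s, by simpa using hs⟩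

theorem cov_biUnion {ι : Type} (t : Finset ι) (m : ι → ℕ) (S : ι → Set (ZMod p → ℝ))
    (h : ∀ i ∈ t, Cov (m i) (S i)) : Cov (∑ i ∈ t, m i) (⋃ i ∈ t, S i) := by
  classical
  induction t using Finset.induction_on with
  | empty => simpa using cov_empty
  | insert a t ha ih =>
    rw [Finset.sum_insert ha, Finset.set_biUnion_insert]
    exact (h a (by simp)).union (ih fun i hi => h i (by simp [hi]))

theorem Cov.preimage [Fact p.Prime] {m : ℕ} {S : Set (ZMod p → ℝ)} (h : Cov m S)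
    (f : (ZMod p → ℝ) → (ZMod p → ℝ)) (hf : Continuous f) (u : ZMod p) (hu : u ≠ 0)
    (he : ∀ s y, f (sh s y) = sh (u * s) (f y)) : Cov m (f ⁻¹' S) := by
  obtain ⟨V, h1, h2, h3⟩ := h
  refine ⟨fun i => f ⁻¹' V i, fun i => (h1 i).preimage hf, fun i y s hy hs => ?_, fun y hy => ?_⟩
  · rw [Set.mem_preimage, he] at hs
    exact (mul_eq_zero.1 (h2 i _ _ hy hs)).resolve_left hu
  · obtain ⟨i, hi, s, hs⟩ := h3 _ hy
    refine ⟨i, hi, u⁻¹ * s, ?_⟩
    rw [Set.mem_preimage, he, ← mul_assoc, mul_inv_cancel₀ hu, one_mul]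
    exact hs

variable [NeZero p]

/-- the boundary of the standard simplex -/
def S0 (p : ℕ) [NeZero p] : Set (ZMod p → ℝ) :=
  {y | (∀ j, 0 ≤ y j) ∧ ∑ j, y j = 1 ∧ ∃ j, y j = 0}

theorem isCompact_S0 : IsCompact (S0 p) := by
  have h : S0 p = stdSimplex ℝ (ZMod p) ∩ ⋃ j, {y | y j = 0} := by
    ext y
    simp [S0, stdSimplex, and_assoc]
  rw [h]
  refine (isCompact_stdSimplex ℝ (ZMod p)).inter_right ?_
  exact isClosed_iUnion_of_finite fun j => isClosed_eq (continuous_apply j) continuous_const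

/-- lists lying in one face, with small diameter -/
def Good (d : ℝ) (l : List (ZMod p → ℝ)) : Prop :=
  (∃ j, ∀ x ∈ l, x ∈ stdSimplex ℝ (ZMod p) ∧ x j = 0) ∧ ∀ x ∈ l, ∀ y ∈ l, dist x y ≤ d

theorem Good.sub {d : ℝ} {l l' : List (ZMod p → ℝ)} (h : Good d l) (hs : l'.Sublist l) :
    Good d l' := by
  obtain ⟨⟨j, h1⟩, h2⟩ := h
  exact ⟨⟨j, fun x hx => h1 x (hs.subset hx)⟩,
    fun x hx y hy => h2 x (hs.subset hx) y (hs.subset hy)⟩

/-- barycentre of a list -/
noncomputable def bary (l : List (ZMod p → ℝ)) : ZMod p → ℝ := (l.length : ℝ)⁻¹ • l.sum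

omit [NeZero p] in
theorem bary_map (s : ZMod p) (l : List (ZMod p → ℝ)) : bary (l.map (sh s)) = sh s (bary l) := by
  have : (l.map (sh s)).sum = sh s l.sum := by
    induction l with
    | nil => rfl
    | cons a l ih => simp only [List.map_cons, List.sum_cons, ih]; rfl
  simp only [bary, List.length_map, this]
  rfl

omit [NeZero p] in
theorem bary_eq (l : List (ZMod p → ℝ)) :
    bary l = ∑ i : Fin l.length, (l.length : ℝ)⁻¹ • l[i.1] := by
  rw [← Finset.smul_sum, Fin.sum_univ_getElem, bary]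

omit [NeZero p] in
theorem bary_mem {K : Set (ZMod p → ℝ)} (hK : Convex ℝ K) {l : List (ZMod p → ℝ)} (hl : l ≠ [])
    (h : ∀ x ∈ l, x ∈ K) : bary l ∈ K := by
  rw [bary_eq]
  have hpos : (l.length : ℝ) ≠ 0 := by
    simpa using hl
  refine hK.sum_mem (fun i _ => by positivity) ?_ (fun i _ => h _ (List.getElem_mem _))
  simp [hpos]

theorem dist_bary {d : ℝ} {l : List (ZMod p → ℝ)} (hlen : l.length ≤ p)
    (h : ∀ x ∈ l, ∀ y ∈ l, dist x y ≤ d) {x : ZMod p → ℝ} (hx : x ∈ l) :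
    dist (bary l) x ≤ (1 - (p : ℝ)⁻¹) * d := by
  obtain ⟨k, hk, rfl⟩ := List.getElem_of_mem hx
  have hd : 0 ≤ d := by simpa using h _ hx _ hx
  have hn : (0 : ℝ) < l.length := by exact_mod_cast (Nat.zero_lt_of_lt hk)
  have e : bary l - l[k] = ∑ i : Fin l.length, (l.length : ℝ)⁻¹ • (l[i.1] - l[k]) := by
    simp only [smul_sub, Finset.sum_sub_distrib, ← bary_eq, Finset.sum_const, Finset.card_univ,
      Fintype.card_fin]
    rw [← Nat.cast_smul_eq_nsmul ℝ, smul_smul, mul_inv_cancel₀ hn.ne', one_smul]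
  rw [dist_eq_norm, e]
  have hle : ∀ i : Fin l.length, ‖(l.length : ℝ)⁻¹ • (l[i.1] - l[k])‖ ≤
      (l.length : ℝ)⁻¹ * d - (if i = ⟨k, hk⟩ then (l.length : ℝ)⁻¹ * d else 0) := by
    intro i
    split_ifs with hi
    · subst hi
      simp
    · rw [norm_smul, Real.norm_eq_abs, abs_of_pos (inv_pos.2 hn), sub_zero, ← dist_eq_norm]
      exact mul_le_mul_of_nonneg_left (h _ (List.getElem_mem _) _ hx) (inv_pos.2 hn).le
  refine (norm_sum_le _ _).trans ((Finset.sum_le_sum fun i _ => hle i).trans ?_)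
  simp only [Finset.sum_sub_distrib, Finset.sum_const, Finset.card_univ, Fintype.card_fin,
    Finset.sum_ite_eq', Finset.mem_univ, if_true, nsmul_eq_mul]
  rw [← mul_assoc, mul_inv_cancel₀ hn.ne', sub_mul]
  have : (p : ℝ)⁻¹ ≤ (l.length : ℝ)⁻¹ := inv_anti₀ hn (by exact_mod_cast hlen)
  nlinarith

/-- a system of chains -/
def Sys (d : ℝ) (n : ℕ) (c : ℕ → Ch (ZMod p) (ZMod p → ℝ)) : Prop :=
  (∀ k ≤ n, c k ∈ Supp (ZMod p) (fun l => l.length = k + 1 ∧ Good d l)) ∧
    bd (c 0) = single [] 1 ∧ ∀ k < n, bd (c (k + 1)) = (shAct p).θ k (c k)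

theorem sys_step {d : ℝ} {n : ℕ} (hn : n + 1 ≤ p) {c : ℕ → Ch (ZMod p) (ZMod p → ℝ)}
    (h : Sys d n c) : Sys ((1 - (p : ℝ)⁻¹) * d) n (fun k => sd bary (k + 1) (c k)) := by
  obtain ⟨h1, h2, h3⟩ := h
  refine ⟨fun k hk => ?_, ?_, fun k hk => ?_⟩
  · refine Supp_and (sd_length _ _ _) ?_
    refine map_mem _ _ (fun l hl => ?_) (h1 k hk)
    have := sd_carrier (R := ZMod p) bary
      (fun l m => (∀ K : Set (ZMod p → ℝ), Convex ℝ K → (∀ x ∈ l, x ∈ K) → ∀ y ∈ m, y ∈ K) ∧
        (l.length ≤ p → (∀ x ∈ l, ∀ y ∈ l, dist x y ≤ d) →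
          ∀ x ∈ m, ∀ y ∈ m, dist x y ≤ (1 - (p : ℝ)⁻¹) * d))
      (fun l => by simp) (fun l l' m hf hq => ?_) (k + 1) l
    · refine Supp_mono (fun m hm => ?_) this
      obtain ⟨hl1, ⟨j, hj⟩, hl3⟩ := hl
      refine ⟨⟨j, hm.1 {x | x ∈ stdSimplex ℝ (ZMod p) ∧ x j = 0} ?_ hj⟩, hm.2 (by omega) hl3⟩
      refine (convex_stdSimplex ℝ (ZMod p)).inter ?_
      exact (convex_singleton (0 : ℝ)).linear_preimage
        (LinearMap.proj j : (ZMod p → ℝ) →ₗ[ℝ] ℝ)
    · have hne : l ≠ [] := by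
        rintro rfl
        have := hf.2
        simp at this
      have hK : ∀ K : Set (ZMod p → ℝ), Convex ℝ K → (∀ x ∈ l, x ∈ K) →
          ∀ y ∈ bary l :: m, y ∈ K := by
        intro K hK hx y hy
        rcases List.mem_cons.1 hy with rfl | hy
        · exact bary_mem hK hne hx
        · exact hq.1 K hK (fun x hx' => hx x (hf.1.subset hx')) y hy
      refine ⟨hK, fun hlen hd => ?_⟩
      have hb : ∀ y ∈ bary l :: m, dist y (bary l) ≤ (1 - (p : ℝ)⁻¹) * d :=
        hK (Metric.closedBall (bary l) ((1 - (p : ℝ)⁻¹) * d)) (convex_closedBall _ _)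
          (fun x hx => by rw [Metric.mem_closedBall, dist_comm]; exact dist_bary hlen hd hx)
      intro x hx y hy
      rcases List.mem_cons.1 hy with rfl | hy'
      · exact hb x hx
      rcases List.mem_cons.1 hx with rfl | hx'
      · rw [dist_comm]; exact hb y hy
      exact hq.2 (by have := hf.2; omega)
        (fun x hx y hy => hd x (hf.1.subset hx) y (hf.1.subset hy)) x hx' y hy'
  · simp only [zero_add, bd_sd, h2, sd_zero_single]
  · simp only [bd_sd, h3 k hk]
    refine (shAct p).comm_θ (shAct p) _ _ (fun s => ?_) k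
    exact sd_cmap bary (sh s) (sh s) (fun _ => True) (fun _ _ _ _ => trivial)
      (fun l _ _ => bary_map s l) _ (mem_top _)

/-- action on the vertices -/
def vAct (p : ℕ) : Act p (ZMod p) := ⟨fun s j => j - s, by simp, fun s t a => by ring⟩

/-- the coarse chains -/
noncomputable def c0 : ℕ → Ch (ZMod p) (ZMod p)
  | 0 => single [0] 1
  | k + 1 => cone 0 ((vAct p).θ k (c0 k))

theorem c0_length (k : ℕ) : (c0 k : Ch (ZMod p) (ZMod p)) ∈
    Supp (ZMod p) (fun l => l.length = k + 1) := by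
  induction k with
  | zero => exact single_mem rfl
  | succ k ih =>
    refine map_mem (cone 0) _ (fun l hl => ?_)
      ((vAct p).θ_mem (P := fun l => l.length = k + 1) (fun s l hl => by simpa using hl) k ih)
    rw [cone_single]
    exact single_mem (by simp [hl])

theorem bd_c0 (k : ℕ) : bd (c0 (k + 1) : Ch (ZMod p) (ZMod p)) = (vAct p).θ k (c0 k) := by
  have hc : ∀ k c, bd ((vAct p).θ k c) = (vAct p).θ k (bd c) := fun k c =>
    (vAct p).comm_θ (vAct p) bd c (fun s => (cmap_bd _ c).symm) k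
  induction k with
  | zero =>
    simp [c0, Act.θ, Act.tau_apply, Act.T, bdL]
  | succ k ih =>
    rw [c0, bd_cone, hc, ih, Act.θ_θ]
    simp

theorem sys_init {n : ℕ} (hn : n + 2 ≤ p) :
    Sys 1 n (fun k => cmap (fun j : ZMod p => (Pi.single j 1 : ZMod p → ℝ)) (c0 k)) := by
  refine ⟨fun k hk => ?_, ?_, fun k hk => ?_⟩
  · refine map_mem _ _ (fun l hl => ?_) (c0_length k)
    rw [cmap_single]
    refine single_mem ⟨by simpa using hl, ?_, ?_⟩
    · have : ∃ j, j ∉ l := by
        by_contra hcon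
        push Not at hcon
        have h1 : (Finset.univ : Finset (ZMod p)) ⊆ l.toFinset := fun j _ => by simpa using hcon j
        have h2 := (Finset.card_le_card h1).trans (List.toFinset_card_le l)
        simp only [Finset.card_univ, ZMod.card] at h2
        omega
      obtain ⟨j, hj⟩ := this
      refine ⟨j, fun x hx => ?_⟩
      obtain ⟨i, hi, rfl⟩ := List.mem_map.1 hx
      refine ⟨single_mem_stdSimplex ℝ i, ?_⟩
      rw [Pi.single_apply, if_neg]
      rintro rfl
      exact hj hi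
    · intro x hx y hy
      obtain ⟨i, -, rfl⟩ := List.mem_map.1 hx
      obtain ⟨j, -, rfl⟩ := List.mem_map.1 hy
      rw [dist_pi_le_iff zero_le_one]
      intro b
      simp only [Pi.single_apply, Real.dist_eq]
      split_ifs <;> simp
  · simp [c0, bdL]
  · simp only [← cmap_bd, bd_c0]
    refine (vAct p).comm_θ (shAct p) _ _ (fun s => ?_) k
    simp only [Act.T, cmap_cmap]
    congr 2
    funext j i
    simp only [Function.comp, vAct, shAct, sh, Pi.single_apply, eq_sub_iff_add_eq]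

theorem sys_small {n : ℕ} (hn : n + 2 ≤ p) {δ : ℝ} (hδ : 0 < δ) :
    ∃ d < δ, ∃ c : ℕ → Ch (ZMod p) (ZMod p → ℝ), Sys d n c := by
  have hp : (0 : ℝ) < p := by exact_mod_cast Nat.pos_of_ne_zero (NeZero.ne p)
  have h : ∀ N : ℕ, ∃ c : ℕ → Ch (ZMod p) (ZMod p → ℝ), Sys ((1 - (p : ℝ)⁻¹) ^ N) n c := by
    intro N
    induction N with
    | zero => exact ⟨_, by rw [pow_zero]; exact sys_init hn⟩
    | succ N ih =>
      obtain ⟨c, hc⟩ := ih
      exact ⟨_, by rw [pow_succ']; exact sys_step (by omega) hc⟩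
  obtain ⟨N, hN⟩ := exists_pow_lt_of_lt_one hδ
    (show 1 - (p : ℝ)⁻¹ < 1 by linarith [inv_pos.2 hp])
  exact ⟨_, hN, h N⟩

theorem length_le_of_pairwise {C : Type} (l : List (ℕ × C)) (M : ℕ)
    (h1 : l.Pairwise (fun z y => y.1 < z.1 ∨ y = z)) (h2 : l.IsChain (· ≠ ·))
    (h3 : ∀ y ∈ l, y.1 < M) : l.length ≤ M := by
  induction l generalizing M with
  | nil => simp
  | cons a l ih =>
    have ha := h3 a (by simp)
    rw [List.pairwise_cons] at h1
    have : l.length ≤ a.1 := by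
      refine ih _ h1.2 h2.tail ?_
      cases l with
      | nil => simp
      | cons b l =>
        have hab : a ≠ b := (List.isChain_cons_cons.1 h2).1
        have hb : b.1 < a.1 := (h1.1 b (by simp)).resolve_right hab.symm
        intro y hy
        rcases List.mem_cons.1 hy with rfl | hy
        · exact hb
        · rcases (List.pairwise_cons.1 h1.2).1 y hy with h | rfl
          · exact h.trans hb
          · exact hb
    simp only [List.length_cons]
    omega

/-- The Borsuk-Ulam theorem for `ZMod p`: the boundary of the simplex has genus at least `p - 1`. -/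
theorem borsuk_ulam [Fact p.Prime] {m : ℕ} (h : Cov m (S0 p)) : p ≤ m + 1 := by
  classical
  by_contra hm
  obtain ⟨V, hV1, hV2, hV3⟩ := h
  obtain ⟨δ, hδ, hleb⟩ := lebesgue_number_lemma_of_metric (isCompact_S0 (p := p))
    (c := fun q : {i // i < m} × ZMod p => sh q.2 ⁻¹' V q.1.1)
    (fun q => (hV1 _).preimage (continuous_sh _)) (fun y hy => by
      obtain ⟨i, hi, s, hs⟩ := hV3 y hy
      exact Set.mem_iUnion.2 ⟨(⟨i, hi⟩, s), hs⟩)
  obtain ⟨d, hd, c, hc1, hc2, hc3⟩ := sys_small (p := p) (n := m) (by omega) hδ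
  let Fits : List (ZMod p → ℝ) → ℕ → ZMod p → Prop := fun l i s => ∀ x ∈ l, sh (-s) x ∈ V i
  let P : List (ZMod p → ℝ) → Prop := fun l => l ≠ [] → ∃ i < m, ∃ s, Fits l i s
  have hgood : ∀ l, Good d l → P l := by
    intro l hl hne
    obtain ⟨x, hx⟩ := List.exists_mem_of_ne_nil l hne
    obtain ⟨⟨j, hj⟩, hl2⟩ := hl
    obtain ⟨q, hq⟩ := hleb x ⟨(hj x hx).1.1, (hj x hx).1.2, j, (hj x hx).2⟩
    refine ⟨q.1.1, q.1.2, -q.2, fun y hy => ?_⟩
    rw [neg_neg]
    exact hq (Metric.mem_ball.2 ((hl2 y hy x hx).trans_lt hd))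
  have hP : ∀ l l', Facet l' l → P l → P l' := by
    intro l l' hf hl _
    have hne : l ≠ [] := by
      rintro rfl
      have := hf.2
      simp at this
    obtain ⟨i, hi, s, hs⟩ := hl hne
    exact ⟨i, hi, s, fun x hx => hs x (hf.1.subset hx)⟩
  have huniq : ∀ l i s t, l ≠ [] → Fits l i s → Fits l i t → s = t := by
    intro l i s t hne hs ht
    obtain ⟨x, hx⟩ := List.exists_mem_of_ne_nil l hne
    have := hV2 i _ (s - t) (hs x hx) (by
      rw [← sh_add, show s - t + -s = -t by ring]; exact ht x hx)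
    exact sub_eq_zero.1 this
  have hex : ∀ l : List (ZMod p → ℝ), ∃ b : ℕ × ZMod p, (∃ i, ∃ s, Fits l i s) →
      Fits l b.1 b.2 ∧ ∀ i s, Fits l i s → b.1 ≤ i := by
    intro l
    by_cases h : ∃ i, ∃ s, Fits l i s
    · obtain ⟨s, hs⟩ := Nat.find_spec h
      exact ⟨(Nat.find h, s), fun _ => ⟨hs, fun i s hs => Nat.find_min' h ⟨s, hs⟩⟩⟩
    · exact ⟨(0, 0), fun h' => absurd h' h⟩
  choose β hβ using hex
  let Y : Act p (ℕ × ZMod p) := ⟨fun s b => (b.1, b.2 + s), by simp, fun s t a => by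
    simp only [Prod.mk.injEq, true_and]; ring⟩
  have hfm : ∀ l i s t, Fits (l.map (sh t)) i (s + t) ↔ Fits l i s := by
    intro l i s t
    simp only [Fits, List.mem_map, forall_exists_index, and_imp, forall_apply_eq_imp_iff₂,
      ← sh_add, show -(s + t) + t = -s by ring]
  have hequi : ∀ t l, l ≠ [] → P l → β (l.map (sh t)) = Y.act t (β l) := by
    intro t l hne hl
    obtain ⟨i, -, s, hs⟩ := hl hne
    obtain ⟨a1, a2⟩ := hβ l ⟨i, s, hs⟩
    obtain ⟨b1, b2⟩ := hβ (l.map (sh t)) ⟨i, s + t, (hfm l i s t).2 hs⟩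
    have e1 : (β (l.map (sh t))).1 = (β l).1 := by
      apply le_antisymm
      · exact b2 _ _ ((hfm l _ _ t).2 a1)
      · refine a2 _ ((β (l.map (sh t))).2 - t) ((hfm l _ _ t).1 ?_)
        rw [sub_add_cancel]
        exact b1
    refine Prod.ext e1 ?_
    rw [e1] at b1
    exact huniq _ _ _ _ (by simpa using hne) b1 ((hfm l _ _ t).2 a1)
  have hPc : ∀ k ≤ m, c k ∈ Supp (ZMod p) P := fun k hk =>
    Supp_mono (fun l hl => hgood l hl.2) (hc1 k hk)
  have key := Y.no_system (sg := Prod.snd) (fun s a => rfl) (fun k => sd β (k + 1) (c k)) m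
    (fun k => sd_length _ _ _) (fun k hk => by
      simp only [bd_sd, hc3 k hk]
      refine (shAct p).comm_θ Y _ _ (fun s => ?_) k
      exact sd_cmap β (sh s) (Y.act s) P hP (hequi s) _ (hPc k hk.le)) ?_
  · simp only [zero_add, bd_sd, hc2, sd_zero_single, nrm_single, List.isChain_nil, if_true] at key
    exact one_ne_zero (Finsupp.single_eq_zero.1 key)
  · have h1 : sd β (m + 1) (c m) ∈ Supp (ZMod p) (fun l : List (ℕ × ZMod p) =>
        l.Pairwise (fun z y => y.1 < z.1 ∨ y = z) ∧ ∀ y ∈ l, y.1 < m) := by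
      refine map_mem _ _ (fun l hl => ?_) (hPc m le_rfl)
      have := sd_carrier (R := ZMod p) β
        (fun l m' => P l → m'.Pairwise (fun z y => y.1 < z.1 ∨ y = z) ∧
          ∀ y ∈ m', l ≠ [] ∧ (y.1 < (β l).1 ∨ y = β l))
        (fun l _ => by simp) (fun l l' m' hf hq hl => ?_) (m + 1) l
      · refine Supp_mono (fun m' hm' => ⟨(hm' hl).1, fun y hy => ?_⟩) this
        obtain ⟨hne, hy⟩ := (hm' hl).2 y hy
        obtain ⟨i, hi, s, hs⟩ := hl hne
        have := (hβ l ⟨i, s, hs⟩).2 i s hs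
        rcases hy with hy | rfl <;> omega
      · have hne : l ≠ [] := by
          rintro rfl
          have := hf.2
          simp at this
        obtain ⟨q1, q2⟩ := hq (hP l l' hf hl)
        obtain ⟨i, hi, s, hs⟩ := hl hne
        obtain ⟨a1, a2⟩ := hβ l ⟨i, s, hs⟩
        have a1' : Fits l' (β l).1 (β l).2 := fun x hx => a1 x (hf.1.subset hx)
        obtain ⟨b1, b2⟩ := hβ l' ⟨_, _, a1'⟩
        have hall : ∀ y ∈ m', y.1 < (β l).1 ∨ y = β l := by
          intro y hy
          obtain ⟨hne', hy⟩ := q2 y hy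
          rcases (b2 _ _ a1').lt_or_eq with hlt | heq
          · left
            rcases hy with hy | rfl
            · exact hy.trans hlt
            · exact hlt
          · have : β l' = β l := Prod.ext heq (huniq l' _ _ _ hne' (heq ▸ b1) a1')
            rwa [this] at hy
        refine ⟨List.pairwise_cons.2 ⟨hall, q1⟩, fun y hy => ⟨hne, ?_⟩⟩
        rcases List.mem_cons.1 hy with rfl | hy
        · exact Or.inr rfl
        · exact hall y hy
    refine map_eq nrm 0 (fun l hl => ?_) (Supp_and h1 (sd_length β (m + 1) (c m)))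
    rw [nrm_single, if_neg]
    · rfl
    · intro hch
      have := length_le_of_pairwise l m hl.1.1 hch hl.1.2
      have := hl.2
      omega

end Pool.Agent.Lib.ZpIndex
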