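import Mathlib

/-!
Chains on lists: a small augmented chain complex, cone maps (subdivision operators),
normalisation, and the algebraic descent behind the Borsuk-Ulam theorem for cyclic groups.
-/

namespace Pool.Agent.Lib.ZpIndex

open Finsupp

variable {R : Type} [CommRing R] {A B : Type}

/-- chains: formal combinations of lists -/
abbrev Ch (R A : Type) [CommRing R] := List A →₀ R

/-- chains supported on lists with a property -/
abbrev Supp (R : Type) [CommRing R] (P : List A → Prop) : Submodule R (Ch R A) :=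
  Finsupp.supported R R {l | P l}

theorem single_mem {P : List A → Prop} {l : List A} (h : P l) : single l (1 : R) ∈ Supp R P :=
  Finsupp.single_mem_supported R 1 h

theorem map_mem {M : Type} [AddCommGroup M] [Module R M] {P : List A → Prop}
    (f : Ch R A →ₗ[R] M) (T : Submodule R M)
    (h : ∀ l, P l → f (single l 1) ∈ T) {c : Ch R A} (hc : c ∈ Supp R P) : f c ∈ T := by
  have : Supp R P ≤ T.comap f := by
    unfold Supp
    rw [Finsupp.supported_eq_span_single, Submodule.span_le]
    rintro _ ⟨l, hl, rfl⟩
    exact h l hl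
  exact this hc

theorem map_eq {M : Type} [AddCommGroup M] [Module R M] {P : List A → Prop}
    (f g : Ch R A →ₗ[R] M)
    (h : ∀ l, P l → f (single l 1) = g (single l 1)) {c : Ch R A} (hc : c ∈ Supp R P) :
    f c = g c := by
  have := map_mem (f - g) ⊥ (fun l hl => by simp [h l hl]) hc
  simpa [sub_eq_zero] using this

theorem mem_top (c : Ch R A) : c ∈ Supp R (fun _ => True) := by
  simp [Supp]

theorem map_eq' {M : Type} [AddCommGroup M] [Module R M]
    (f g : Ch R A →ₗ[R] M)
    (h : ∀ l, f (single l 1) = g (single l 1)) (c : Ch R A) :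
    f c = g c :=
  map_eq f g (fun l _ => h l) (mem_top c)

theorem Supp_mono {P Q : List A → Prop} (h : ∀ l, P l → Q l) {c : Ch R A} (hc : c ∈ Supp R P) :
    c ∈ Supp R Q :=
  Finsupp.supported_mono (fun l hl => h l hl) hc

theorem Supp_and {P Q : List A → Prop} {c : Ch R A} (hc : c ∈ Supp R P) (hc' : c ∈ Supp R Q) :
    c ∈ Supp R (fun l => P l ∧ Q l) := by
  simp only [Supp, Finsupp.mem_supported] at *
  intro l hl
  exact ⟨hc hl, hc' hl⟩

/-- cone over a vertex -/
noncomputable def cone (a : A) : Ch R A →ₗ[R] Ch R A := Finsupp.lmapDomain R R (List.cons a)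

@[simp] theorem cone_single (a : A) (l : List A) (r : R) :
    cone a (single l r) = single (a :: l) r := by
  simp [cone, Finsupp.mapDomain_single]

/-- boundary of a list -/
noncomputable def bdL : List A → Ch R A
  | [] => 0
  | a :: l => single l 1 - cone a (bdL l)

/-- boundary operator -/
noncomputable def bd : Ch R A →ₗ[R] Ch R A := Finsupp.linearCombination R bdL

@[simp] theorem bd_single (l : List A) : bd (single l (1 : R)) = bdL l := by
  simp [bd]

theorem bd_cone (a : A) (c : Ch R A) : bd (cone a c) = c - cone a (bd c) := by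
  have := map_eq' (bd ∘ₗ cone a) (LinearMap.id - cone a ∘ₗ bd) (fun l => by simp [bdL]) c
  simpa using this

theorem bd_bdL (l : List A) : bd (bdL l : Ch R A) = 0 := by
  induction l with
  | nil => simp [bdL]
  | cons a l ih => simp [bdL, bd_cone, ih]

theorem bd_bd (c : Ch R A) : bd (bd c) = 0 := by
  have := map_eq' (bd ∘ₗ bd) 0 (fun l => by simp [bd_bdL]) c
  simpa using this

/-- `l'` is a facet of `l` -/
def Facet (l' l : List A) : Prop := l'.Sublist l ∧ l'.length + 1 = l.length

theorem bdL_mem (l : List A) : (bdL l : Ch R A) ∈ Supp R (fun l' => Facet l' l) := by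
  induction l with
  | nil => simp [bdL]
  | cons a l ih =>
    unfold bdL
    refine Submodule.sub_mem _ (single_mem ⟨by simp, by simp⟩) ?_
    refine map_mem (cone a) _ (fun l' hl' => ?_) ih
    rw [cone_single]
    exact single_mem ⟨hl'.1.cons_cons a, by simp [hl'.2]⟩

/-- map induced by a vertex map -/
noncomputable def cmap (f : A → B) : Ch R A →ₗ[R] Ch R B := Finsupp.lmapDomain R R (List.map f)

@[simp] theorem cmap_single (f : A → B) (l : List A) (r : R) :
    cmap f (single l r) = single (l.map f) r := by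
  simp [cmap, Finsupp.mapDomain_single]

theorem cmap_cone (f : A → B) (a : A) (c : Ch R A) :
    cmap f (cone a c) = cone (f a) (cmap f c) := by
  have := map_eq' (cmap f ∘ₗ cone a) (cone (f a) ∘ₗ cmap f) (fun l => by simp) c
  simpa using this

theorem cmap_bdL (f : A → B) (l : List A) : cmap f (bdL l : Ch R A) = bdL (l.map f) := by
  induction l with
  | nil => simp [bdL]
  | cons a l ih => simp [bdL, cmap_cone, ih]

theorem cmap_bd (f : A → B) (c : Ch R A) : cmap f (bd c) = bd (cmap f c) := by
  have := map_eq' (cmap f ∘ₗ bd) (bd ∘ₗ cmap f) (fun l => by simp [cmap_bdL]) c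
  simpa using this

theorem cmap_cmap {C : Type} (f : A → B) (g : B → C) (c : Ch R A) :
    cmap g (cmap f c) = cmap (g ∘ f) c := by
  have := map_eq' (cmap g ∘ₗ cmap f) (cmap (g ∘ f)) (fun l => by simp) c
  simpa using this

/-- the cone construction attached to a choice of a vertex for every list -/
noncomputable def sd (β : List A → B) : ℕ → (Ch R A →ₗ[R] Ch R B)
  | 0 => Finsupp.linearCombination R (fun _ => single [] 1)
  | n + 1 => Finsupp.linearCombination R (fun l => cone (β l) (sd β n (bdL l)))

@[simp] theorem sd_zero_single (β : List A → B) (l : List A) :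
    sd β 0 (single l (1 : R)) = single [] 1 := by
  simp [sd]

theorem sd_succ_single (β : List A → B) (n : ℕ) (l : List A) :
    sd β (n + 1) (single l (1 : R)) = cone (β l) (sd β n (bdL l)) := by
  simp [sd]

theorem bd_sd_zero (β : List A → B) (c : Ch R A) : bd (sd β 0 c) = 0 := by
  have := map_eq' (bd ∘ₗ sd β 0) 0 (fun l => by simp [bdL]) c
  simpa using this

theorem bd_sd (β : List A → B) (n : ℕ) (c : Ch R A) :
    bd (sd β (n + 1) c) = sd β n (bd c) := by
  induction n generalizing c with
  | zero =>
    have := map_eq' (bd ∘ₗ sd β 1) (sd β 0 ∘ₗ bd) (fun l => by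
      simp [sd_succ_single, bd_cone, bd_sd_zero]) c
    simpa using this
  | succ n ih =>
    have := map_eq' (bd ∘ₗ sd β (n + 2)) (sd β (n + 1) ∘ₗ bd) (fun l => by
      simp [sd_succ_single β (n + 1), bd_cone, ih, bd_bdL]) c
    simpa using this

theorem sd_length (β : List A → B) (n : ℕ) (c : Ch R A) :
    sd β n c ∈ Supp R (fun m => m.length = n) := by
  induction n generalizing c with
  | zero => exact map_mem _ _ (fun l _ => by rw [sd_zero_single]; exact single_mem rfl) (mem_top c)
  | succ n ih =>
    refine map_mem _ _ (fun l _ => ?_) (mem_top c)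
    rw [sd_succ_single]
    refine map_mem (cone (β l)) _ (fun m hm => ?_) (ih _)
    rw [cone_single]
    exact single_mem (by simp [hm])

theorem sd_carrier (β : List A → B) (Q : List A → List B → Prop) (h0 : ∀ l, Q l [])
    (hs : ∀ l l' m, Facet l' l → Q l' m → Q l (β l :: m)) (n : ℕ) (l : List A) :
    sd β n (single l (1 : R)) ∈ Supp R (Q l) := by
  induction n generalizing l with
  | zero => rw [sd_zero_single]; exact single_mem (h0 l)
  | succ n ih =>
    rw [sd_succ_single]
    change (cone (R := R) (β l) ∘ₗ sd β n) (bdL l) ∈ _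
    refine map_mem _ _ (fun l' hl' => ?_) (bdL_mem l)
    refine map_mem (cone (β l)) _ (fun m hm => ?_) (ih l')
    rw [cone_single]
    exact single_mem (hs l l' m hl' hm)

theorem sd_cmap (β : List A → B) (f : A → A) (g : B → B) (P : List A → Prop)
    (hP : ∀ l l', Facet l' l → P l → P l')
    (hβ : ∀ l, l ≠ [] → P l → β (l.map f) = g (β l)) (n : ℕ) {c : Ch R A} (hc : c ∈ Supp R P) :
    sd β n (cmap f c) = cmap g (sd β n c) := by
  induction n generalizing c with
  | zero =>
    exact map_eq (sd β 0 ∘ₗ cmap f) (cmap g ∘ₗ sd β 0) (fun l _ => by simp) hc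
  | succ n ih =>
    refine map_eq (sd β (n + 1) ∘ₗ cmap f) (cmap g ∘ₗ sd β (n + 1)) (fun l hl => ?_) hc
    simp only [LinearMap.comp_apply, cmap_single, sd_succ_single]
    by_cases hne : l = []
    · subst hne
      simp [bdL]
    · rw [cmap_cone, hβ l hne hl, ← cmap_bdL, ih]
      exact Supp_mono (fun l' hl' => hP l l' hl' hl) (bdL_mem l)

open Classical in
/-- normalisation: kill lists with two equal neighbours -/
noncomputable def nrm : Ch R A →ₗ[R] Ch R A :=
  Finsupp.linearCombination R (fun l => if l.IsChain (· ≠ ·) then single l 1 else 0)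

open Classical in
theorem nrm_single (l : List A) :
    nrm (single l (1 : R)) = if l.IsChain (· ≠ ·) then single l 1 else 0 := by
  simp [nrm]

theorem nrm_cone_nrm (a : A) (c : Ch R A) : nrm (cone a (nrm c)) = nrm (cone a c) := by
  have := map_eq' (nrm ∘ₗ cone a ∘ₗ nrm) (nrm ∘ₗ cone a) (fun l => by
    simp only [LinearMap.comp_apply, nrm_single, cone_single]
    by_cases h : l.IsChain (· ≠ ·)
    · simp [h, nrm_single]
    · have h' : ¬ (a :: l).IsChain (· ≠ ·) := fun h' => h h'.tail
      simp only [h, h', if_false, map_zero]) c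
  simpa using this

theorem nrm_cone_cone (a : A) (c : Ch R A) : nrm (cone a (cone a c)) = 0 := by
  have := map_eq' (nrm ∘ₗ cone a ∘ₗ cone a) 0 (fun l => by
    simp [nrm_single]) c
  simpa using this

theorem nrm_bdL (l : List A) (h : ¬ l.IsChain (· ≠ ·)) : nrm (bdL l : Ch R A) = 0 := by
  induction l with
  | nil => simp [bdL]
  | cons a l ih =>
    by_cases hl : l.IsChain (· ≠ ·)
    · cases l with
      | nil => simp at h
      | cons b l =>
        have hab : a = b := by
          by_contra hne
          exact h (List.IsChain.cons_cons hne hl)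
        subst hab
        simp [bdL, nrm_cone_cone]
    · rw [bdL, map_sub, ← nrm_cone_nrm, ih hl, nrm_single, if_neg hl]
      simp

theorem nrm_bd_nrm (c : Ch R A) : nrm (bd (nrm c)) = nrm (bd c) := by
  have := map_eq' (nrm ∘ₗ bd ∘ₗ nrm) (nrm ∘ₗ bd) (fun l => by
    simp only [LinearMap.comp_apply, nrm_single, bd_single]
    by_cases h : l.IsChain (· ≠ ·)
    · simp [h]
    · simp only [h, if_false, map_zero, nrm_bdL l h]) c
  simpa using this

theorem nrm_cmap (f : A → A) (hf : Function.Injective f) (c : Ch R A) :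
    nrm (cmap f c) = cmap f (nrm c) := by
  have := map_eq' (nrm ∘ₗ cmap f) (cmap f ∘ₗ nrm) (fun l => by
    simp only [LinearMap.comp_apply, nrm_single, cmap_single]
    have : (l.map f).IsChain (· ≠ ·) ↔ l.IsChain (· ≠ ·) := by
      rw [List.isChain_map]
      simp [hf.eq_iff]
    by_cases h : l.IsChain (· ≠ ·)
    · simp [h, this.2 h]
    · simp only [h, this, if_false, map_zero]) c
  simpa using this

theorem nrm_mem {P : List A → Prop} {c : Ch R A} (hc : c ∈ Supp R P) : nrm c ∈ Supp R P := by
  refine map_mem _ _ (fun l hl => ?_) hc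
  rw [nrm_single]
  split_ifs
  · exact single_mem hl
  · exact Submodule.zero_mem _

theorem bd_length {n : ℕ} {c : Ch R A} (hc : c ∈ Supp R (fun l => l.length = n + 1)) :
    bd c ∈ Supp R (fun l => l.length = n) := by
  refine map_mem _ _ (fun l hl => ?_) hc
  rw [bd_single]
  exact Supp_mono (fun l' hl' => by have := hl'.2; omega) (bdL_mem l)

/-- The abstract descent argument. -/
theorem descent {M : Type} [AddCommGroup M] [Module R M] (D : M →ₗ[R] M) (θ : ℕ → M →ₗ[R] M)
    (C : ℕ → Submodule R M) (hDD : ∀ x, D (D x) = 0) (hθ : ∀ k, θ (k + 2) = θ k)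
    (hDθ : ∀ k x, D (θ k x) = θ k (D x)) (hDC : ∀ k x, x ∈ C (k + 1) → D x ∈ C k)
    (hex : ∀ k j x, x ∈ C (j + 1) → θ k x = 0 → ∃ e ∈ C (j + 1), x = θ (k + 1) e)
    (h0 : ∀ x ∈ C 0, θ 1 x = 0)
    (b : ℕ → M) (n : ℕ) (hb : ∀ k, b k ∈ C (k + 1)) (hbd : ∀ k, k < n → D (b (k + 1)) = θ k (b k))
    (hn : b n = 0) : D (b 0) = 0 := by
  have key : ∀ j k, k + j = n → ∃ e ∈ C (k + 2), ∃ e' ∈ C (k + 1), b k - D e = θ (k + 1) e' := by
    intro j
    induction j with
    | zero =>
      intro k hk
      refine ⟨0, Submodule.zero_mem _, 0, Submodule.zero_mem _, ?_⟩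
      simp only [add_zero] at hk
      simp [hk, hn]
    | succ j ih =>
      intro k hk
      obtain ⟨e, _, e', he', h⟩ := ih (k + 1) (by omega)
      have h1 := congrArg D h
      rw [map_sub, hDD, sub_zero, hbd k (by omega), hDθ, hθ] at h1
      obtain ⟨e'', he'', h2⟩ := hex k k (b k - D e')
        (Submodule.sub_mem _ (hb k) (hDC _ _ he')) (by rw [map_sub, h1, sub_self])
      exact ⟨e', he', e'', he'', h2⟩
  obtain ⟨e, _, e', he', h⟩ := key n 0 (by simp)
  have h1 := congrArg D h
  rw [map_sub, hDD, sub_zero, hDθ] at h1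
  rw [h1]
  exact h0 _ (hDC _ _ he')

end Pool.Agent.Lib.ZpIndex
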