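import Pool.Agent.Lib.ZpIndex.BU

/-!
A discrete Sturm-Hurwitz theorem on `ZMod p` and the genus bound for functions with a long
high window and a low point.
-/

namespace Pool.Agent.Lib.ZpIndex

open Real

variable {p : ℕ} [NeZero p]

/-- the standard character -/
noncomputable def chi (j : ZMod p) : ℂ := ZMod.stdAddChar j

theorem chi_add (a b : ZMod p) : chi (a + b) = chi a * chi b := AddChar.map_add_eq_mul _ a b

theorem chi_zero : chi (0 : ZMod p) = 1 := AddChar.map_zero_eq_one _

theorem chi_nat (i : ℕ) : chi (i : ZMod p) = Complex.exp (2 * π * Complex.I * i / p) := by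
  have := ZMod.stdAddChar_coe (N := p) (i : ℤ)
  simpa [chi] using this

theorem chi_neg_mul (a : ZMod p) : chi (-a) * chi a = 1 := by
  rw [← chi_add, neg_add_cancel, chi_zero]

theorem chi_inj : Function.Injective (chi : ZMod p → ℂ) := ZMod.injective_stdAddChar

theorem chi_conj (a : ZMod p) : (starRingEnd ℂ) (chi a) = chi (-a) := by
  have h : ‖chi a‖ = 1 := by
    rw [chi, ZMod.stdAddChar_apply]
    exact Circle.norm_coe _
  have h1 : (starRingEnd ℂ) (chi a) * chi a = 1 := by
    rw [Complex.conj_mul', h]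
    simp
  have h2 := chi_neg_mul a
  have h3 : chi a ≠ 0 := by
    intro h0
    rw [h0] at h
    simp at h
  exact mul_right_cancel₀ h3 (h1.trans h2.symm)

/-- Fourier coefficient -/
noncomputable def coef (r : ℤ) (f : ZMod p → ℝ) : ℂ := ∑ j, (f j : ℂ) * chi ((r : ZMod p) * j)

theorem continuous_coef (r : ℤ) : Continuous (coef (p := p) r) := by
  unfold coef
  fun_prop

theorem coef_sh (r : ℤ) (s : ZMod p) (f : ZMod p → ℝ) :
    coef r (sh s f) = chi (-((r : ZMod p) * s)) * coef r f := by
  unfold coef
  rw [Finset.mul_sum, ← Equiv.sum_comp (Equiv.addRight s)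
    (fun j => chi (-((r : ZMod p) * s)) * ((f j : ℂ) * chi ((r : ZMod p) * j)))]
  refine Finset.sum_congr rfl fun j _ => ?_
  simp only [sh, Equiv.coe_addRight]
  rw [mul_left_comm, ← chi_add]
  congr 2
  ring

theorem exists_q (a : ZMod p) (len : ℕ) (hlen : len ≤ p) : ∃ q : ZMod p → ℝ,
    (∀ j, (j - a).val < len → q j < 0) ∧ (∀ j, len ≤ (j - a).val → 0 < q j) ∧
    ∃ c0 c1 c2 : ℂ, ∀ j, (q j : ℂ) = c0 + c1 * chi j + c2 * chi (-j) := by
  have hp : (0 : ℝ) < p := by exact_mod_cast Nat.pos_of_ne_zero (NeZero.ne p)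
  have hfac : ∀ i : ℕ, cos (π * len / p) - cos (π * (2 * i + 1 - len) / p) =
      -2 * sin (π * ((2 * i + 1) / (2 * p))) * sin (π * ((2 * len - 2 * i - 1) / (2 * p))) := by
    intro i
    rw [Real.cos_sub_cos]
    congr 2
    · congr 1
      field_simp
      ring
    · field_simp
      ring
  have hsin : ∀ t : ℝ, 0 < t → t < 1 → 0 < sin (π * t) := fun t h0 h1 =>
    sin_pos_of_pos_of_lt_pi (mul_pos pi_pos h0) (by nlinarith [pi_pos])
  have h1 : ∀ i : ℕ, i < p → 0 < sin (π * ((2 * i + 1) / (2 * p))) := by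
    intro i hi
    have : (i : ℝ) + 1 ≤ p := by exact_mod_cast hi
    refine hsin _ (by positivity) ?_
    rw [div_lt_one (by positivity)]
    linarith
  refine ⟨fun j => cos (π * len / p) - cos (π * (2 * (j - a).val + 1 - len) / p),
    fun j hj => ?_, fun j hj => ?_, ?_⟩
  · beta_reduce
    rw [hfac]
    have h2 := h1 _ (ZMod.val_lt (j - a))
    have h3 : ((j - a).val : ℝ) + 1 ≤ len := by exact_mod_cast hj
    have h4 : (len : ℝ) ≤ p := by exact_mod_cast hlen
    have h5 : (0 : ℝ) ≤ (j - a).val := Nat.cast_nonneg _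
    have h6 := hsin ((2 * len - 2 * (j - a).val - 1) / (2 * p))
      (div_pos (by linarith) (by positivity)) (by rw [div_lt_one (by positivity)]; linarith)
    nlinarith [mul_pos h2 h6]
  · beta_reduce
    rw [hfac]
    have h2 := h1 _ (ZMod.val_lt (j - a))
    have h3 : (len : ℝ) ≤ (j - a).val := by exact_mod_cast hj
    have h4 : ((j - a).val : ℝ) + 1 ≤ p := by exact_mod_cast ZMod.val_lt (j - a)
    have h5 : (0 : ℝ) ≤ len := Nat.cast_nonneg _
    have h6 := hsin (-((2 * len - 2 * (j - a).val - 1) / (2 * p)))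
      (by rw [← neg_div]; exact div_pos (by linarith) (by positivity))
      (by rw [← neg_div, div_lt_one (by positivity)]; linarith)
    rw [mul_neg, sin_neg] at h6
    nlinarith [mul_pos h2 h6]
  · refine ⟨(cos (π * len / p) : ℝ),
      -(Complex.exp (π * (1 - len) / p * Complex.I) * chi (-a)) / 2,
      -(Complex.exp (-(π * (1 - len) / p * Complex.I)) * chi a) / 2, fun j => ?_⟩
    have hp' : (p : ℂ) ≠ 0 := by exact_mod_cast hp.ne'
    have e1 : chi (-a) * chi j = Complex.exp (2 * π * Complex.I * (j - a).val / p) := by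
      rw [← chi_nat, ZMod.natCast_zmod_val, ← chi_add]
      congr 1
      ring
    have e2 : chi a * chi (-j) = Complex.exp (-(2 * π * Complex.I * (j - a).val / p)) := by
      rw [Complex.exp_neg, ← e1]
      refine eq_inv_of_mul_eq_one_left ?_
      have := chi_neg_mul a
      have := chi_neg_mul j
      grind
    have e3 : ((cos (π * (2 * (j - a).val + 1 - len) / p) : ℝ) : ℂ) =
        (Complex.exp (π * (1 - len) / p * Complex.I) *
          Complex.exp (2 * π * Complex.I * (j - a).val / p) +
        Complex.exp (-(π * (1 - len) / p * Complex.I)) *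
          Complex.exp (-(2 * π * Complex.I * (j - a).val / p))) / 2 := by
      rw [Complex.ofReal_cos, Complex.cos, ← Complex.exp_add, ← Complex.exp_add]
      push_cast
      congr 3
      · field_simp
        ring
      · field_simp
        ring
    rw [Complex.ofReal_sub, e3, ← e1, ← e2]
    ring

/-- left ends of runs -/
def ends (S : Finset (ZMod p)) : Finset (ZMod p) := S.filter fun a => a - 1 ∉ S

/-- discrete Sturm-Hurwitz theorem -/
theorem sturm (M : ℕ) (S : Finset (ZMod p)) (f : ZMod p → ℝ) (hS : S ≠ Finset.univ)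
    (hM : (ends S).card ≤ M) (h1 : ∀ j ∈ S, 0 ≤ f j) (h2 : ∀ j ∉ S, f j ≤ 0)
    (hO : ∀ r : ℤ, |r| ≤ M → coef r f = 0) : ∀ j, f j = 0 := by
  have base : ∀ (S : Finset (ZMod p)) (f : ZMod p → ℝ), S ≠ Finset.univ → ends S = ∅ →
      (∀ j ∉ S, f j ≤ 0) → coef 0 f = 0 → ∀ j, f j = 0 := by
    intro S f hS hE h2 hO
    have hSe : ∀ a, a ∉ S := by
      intro a ha
      apply hS
      have h3 : ∀ n : ℕ, a - n ∈ S := by
        intro n
        induction n with
        | zero => simpa using ha
        | succ n ih =>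
          by_contra hcon
          have : a - n ∈ ends S := Finset.mem_filter.2 ⟨ih, by
            rwa [Nat.cast_succ, ← sub_sub] at hcon⟩
          rw [hE] at this
          simp at this
      refine Finset.eq_univ_of_forall fun j => ?_
      have := h3 (a - j).val
      rwa [ZMod.natCast_zmod_val, sub_sub_cancel] at this
    have hsum : ∑ j, f j = 0 := by
      have : ((∑ j, f j : ℝ) : ℂ) = 0 := by
        rw [← hO]
        simp [coef, chi_zero]
      exact_mod_cast this
    intro j
    exact (Finset.sum_eq_zero_iff_of_nonpos fun j _ => h2 j (hSe j)).1 hsum j (Finset.mem_univ _)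
  induction M generalizing S f with
  | zero => exact base S f hS (Finset.card_eq_zero.1 (by omega)) h2 (hO 0 (by simp))
  | succ M ih =>
    rcases (ends S).eq_empty_or_nonempty with hE | ⟨a, ha⟩
    · exact base S f hS hE h2 (hO 0 (by simp; positivity))
    obtain ⟨ha1, ha2⟩ := Finset.mem_filter.1 ha
    have hp0 : 0 < p := Nat.pos_of_ne_zero (NeZero.ne p)
    have hex : ∃ i : ℕ, a + i ∉ S := ⟨p - 1, by
      rwa [Nat.cast_sub hp0, ZMod.natCast_self, Nat.cast_one, zero_sub, ← sub_eq_add_neg]⟩
    have hlen : Nat.find hex ≤ p - 1 := Nat.find_min' hex (by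
      rwa [Nat.cast_sub hp0, ZMod.natCast_self, Nat.cast_one, zero_sub, ← sub_eq_add_neg])
    have hlen0 : 0 < Nat.find hex := by
      rw [Nat.find_pos]
      simpa using ha1
    set len := Nat.find hex with hlendef
    have hin : ∀ i < len, a + i ∈ S := fun i hi => by
      have := Nat.find_min hex hi
      simpa using this
    have hout : a + len ∉ S := Nat.find_spec hex
    obtain ⟨q, hq1, hq2, c0, c1, c2, hq3⟩ := exists_q a len (by omega)
    have hfq := ih (S.filter fun j => len ≤ (j - a).val) (fun j => f j * q j) ?_ ?_ ?_ ?_ ?_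
    · intro j
      rcases mul_eq_zero.1 (hfq j) with h | h
      · exact h
      · rcases lt_or_ge (j - a).val len with hj | hj
        · exact absurd h (hq1 j hj).ne
        · exact absurd h (hq2 j hj).ne'
    · intro h
      have : a ∈ S.filter fun j => len ≤ (j - a).val := h ▸ Finset.mem_univ _
      simp at this
      omega
    · have hsub : ends (S.filter fun j => len ≤ (j - a).val) ⊆ (ends S).erase a := by
        intro b hb
        simp only [ends, Finset.mem_filter, not_and, not_le, Finset.mem_erase] at hb ⊢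
        obtain ⟨⟨hb1, hb2⟩, hb3⟩ := hb
        refine ⟨?_, hb1, fun hb4 => ?_⟩
        · rintro rfl
          simp at hb2
          omega
        · have h5 := hb3 hb4
          have h6 : b - a = (((b - 1 - a).val + 1 : ℕ) : ZMod p) := by
            rw [Nat.cast_succ, ZMod.natCast_zmod_val]
            ring
          have h7 : (b - a).val = (b - 1 - a).val + 1 := by
            rw [h6, ZMod.val_cast_of_lt (by omega)]
          have h8 : len = (b - a).val := by omega
          apply hout
          rw [h8, ZMod.natCast_zmod_val]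
          simpa using hb1
      have := Finset.card_le_card hsub
      rw [Finset.card_erase_of_mem ha] at this
      omega
    · intro j hj
      obtain ⟨hj1, hj2⟩ := Finset.mem_filter.1 hj
      exact mul_nonneg (h1 j hj1) (hq2 j hj2).le
    · intro j hj
      rcases lt_or_ge (j - a).val len with hj' | hj'
      · have := hin _ hj'
        rw [ZMod.natCast_zmod_val, add_sub_cancel] at this
        exact mul_nonpos_of_nonneg_of_nonpos (h1 j this) (hq1 j hj').le
      · have : j ∉ S := fun h => hj (Finset.mem_filter.2 ⟨h, hj'⟩)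
        exact mul_nonpos_of_nonpos_of_nonneg (h2 j this) (hq2 j hj').le
    · intro r hr
      have e : coef r (fun j => f j * q j) =
          c0 * coef r f + c1 * coef (r + 1) f + c2 * coef (r - 1) f := by
        simp only [coef, Finset.mul_sum, ← Finset.sum_add_distrib]
        refine Finset.sum_congr rfl fun j _ => ?_
        push_cast
        rw [hq3, add_mul (r : ZMod p), sub_mul (r : ZMod p), one_mul, sub_eq_add_neg,
          chi_add, chi_add]
        ring
      have hr' := abs_le.1 hr
      rw [e, hO r (abs_le.2 ⟨by push_cast; omega, by push_cast; omega⟩),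
        hO (r + 1) (abs_le.2 ⟨by push_cast; omega, by push_cast; omega⟩),
        hO (r - 1) (abs_le.2 ⟨by push_cast; omega, by push_cast; omega⟩)]
      simp

theorem ends_card (R : ℕ) (S : Finset (ZMod p))
    (hW : ∀ j ∈ S, ∃ i < R, ∀ i' < R, j - (i : ℕ) + (i' : ℕ) ∈ S) : (ends S).card * R ≤ p := by
  have h1 : ∀ a ∈ ends S, ∀ i' < R, a + (i' : ℕ) ∈ S := by
    intro a ha
    obtain ⟨ha1, ha2⟩ := Finset.mem_filter.1 ha
    obtain ⟨i, hi, h⟩ := hW a ha1
    cases i with
    | zero => simpa using h
    | succ i =>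
      exfalso
      apply ha2
      have := h i (by omega)
      rwa [Nat.cast_succ, show a - ((i : ZMod p) + 1) + i = a - 1 by ring] at this
  have h2 : ∀ a ∈ ends S, ∀ b ∈ ends S, ∀ i < R, ∀ i' < i, a + (i : ℕ) ≠ b + (i' : ℕ) := by
    intro a ha b hb i hi i' hi' h
    apply (Finset.mem_filter.1 hb).2
    have := h1 a ha (i - i' - 1) (by omega)
    rw [Nat.cast_sub (by omega), Nat.cast_sub (by omega), Nat.cast_one] at this
    rwa [show b - 1 = a + ((i : ZMod p) - i' - 1) by linear_combination -h]
  have := Finset.card_le_card_of_injOn (s := ends S ×ˢ Finset.range R) (t := Finset.univ)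
    (fun x => x.1 + (x.2 : ZMod p)) (fun _ _ => Finset.mem_coe.2 (Finset.mem_univ _)) (by
      rintro ⟨a, i⟩ ha ⟨b, i'⟩ hb h
      simp only [Finset.coe_product, Set.mem_prod, Finset.mem_coe, Finset.mem_range] at ha hb h
      rcases lt_trichotomy i i' with hi | rfl | hi
      · exact absurd h.symm (h2 b hb.1 a ha.1 i' hb.2 i hi)
      · rw [add_right_cancel h]
      · exact absurd h (h2 a ha.1 b hb.1 i ha.2 i' hi))
  simpa using this

/-- if the maximum of `h` on each orbit is attained at most `K < p` times, the genus is at most `K` -/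
theorem cov_argmax [Fact p.Prime] (h : (ZMod p → ℝ) → ℝ) (hh : Continuous h) (K : ℕ) (hK : K < p) :
    Cov K {y : ZMod p → ℝ | ∀ c, (Finset.univ.filter fun s => h (sh s y) = c).card ≤ K} := by
  classical
  let V : ℕ → Set (ZMod p → ℝ) := fun i => {y | i < K ∧ ∃ A : Finset (ZMod p), A.card = i + 1 ∧
    ∑ a ∈ A, a = 0 ∧ ∀ a ∈ A, ∀ b ∉ A, h (sh b y) < h (sh a y)}
  have hne : ∀ i < K, ((i + 1 : ℕ) : ZMod p) ≠ 0 := by
    intro i hi h0
    have := Nat.le_of_dvd (by omega) ((ZMod.natCast_eq_zero_iff _ _).1 h0)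
    omega
  refine ⟨V, fun i => ?_, ?_, ?_⟩
  · have : V i = ⋃ A ∈ {A : Finset (ZMod p) | i < K ∧ A.card = i + 1 ∧ ∑ a ∈ A, a = 0},
        ⋂ a ∈ A, ⋂ b ∈ Aᶜ, {y | h (sh b y) < h (sh a y)} := by
      ext y
      simp only [V, Set.mem_ofPred_eq, Set.mem_iUnion, Set.mem_iInter, Finset.mem_compl]
      constructor
      · rintro ⟨h1, A, h2, h3, h4⟩
        exact ⟨A, ⟨h1, h2, h3⟩, h4⟩
      · rintro ⟨A, ⟨h1, h2, h3⟩, h4⟩
        exact ⟨h1, A, h2, h3, h4⟩
    rw [this]
    refine isOpen_biUnion fun A _ => isOpen_biInter_finset fun a _ =>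
      isOpen_biInter_finset fun b _ => ?_
    exact isOpen_lt (hh.comp (continuous_sh b)) (hh.comp (continuous_sh a))
  · rintro i y s ⟨hi, A, hA1, hA2, hA3⟩ ⟨-, B, hB1, hB2, hB3⟩
    let B' := B.map (Equiv.addRight s).toEmbedding
    have hB' : ∀ a, a ∈ B' ↔ a - s ∈ B := by
      intro a
      simp [B', sub_eq_add_neg]
    have hB3' : ∀ a ∈ B', ∀ b ∉ B', h (sh b y) < h (sh a y) := by
      intro a ha b hb
      have := hB3 _ ((hB' a).1 ha) (b - s) (fun h => hb ((hB' b).2 h))
      rwa [← sh_add, ← sh_add, sub_add_cancel, sub_add_cancel] at this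
    have hAB : A = B' := by
      refine Finset.eq_of_subset_of_card_le (fun a ha => ?_) (by simp [B', hA1, hB1])
      by_contra ha'
      have : ¬ B' ⊆ A := by
        intro hsub
        have := Finset.eq_of_subset_of_card_le hsub (by simp [B', hA1, hB1])
        exact ha' (this ▸ ha)
      obtain ⟨b, hb, hb'⟩ := Finset.not_subset.1 this
      exact lt_asymm (hA3 a ha b hb') (hB3' b hb a ha')
    rw [hAB] at hA2
    simp only [B', Finset.sum_map, Equiv.coe_toEmbedding, Equiv.coe_addRight,
      Finset.sum_add_distrib, hB2, zero_add, Finset.sum_const, hB1, nsmul_eq_mul] at hA2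
    exact (mul_eq_zero.1 hA2).resolve_left (hne i hi)
  · intro y hy
    obtain ⟨a0, -, ha0⟩ := Finset.exists_max_image Finset.univ (fun s => h (sh s y))
      Finset.univ_nonempty
    let A := Finset.univ.filter fun s => h (sh s y) = h (sh a0 y)
    have hA0 : 0 < A.card := Finset.card_pos.2 ⟨a0, by simp [A]⟩
    have hAK : A.card ≤ K := hy _
    have hi : A.card - 1 < K := by omega
    have hc : ((A.card : ℕ) : ZMod p) ≠ 0 := by
      have := hne _ hi
      rwa [Nat.sub_add_cancel hA0] at this
    let s : ZMod p := (A.card : ZMod p)⁻¹ * ∑ a ∈ A, a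
    refine ⟨A.card - 1, hi, s, hi, A.map (Equiv.subRight s).toEmbedding, ?_, ?_, ?_⟩
    · rw [Finset.card_map]
      omega
    · simp only [Finset.sum_map, Equiv.coe_toEmbedding, Equiv.subRight_apply,
        Finset.sum_sub_distrib, Finset.sum_const, nsmul_eq_mul, s]
      rw [← mul_assoc, mul_inv_cancel₀ hc, one_mul, sub_self]
    · intro a ha b hb
      have ha' : a + s ∈ A := by simpa using ha
      have hb' : b + s ∉ A := by simpa using hb
      rw [← sh_add, ← sh_add]
      simp only [A, Finset.mem_filter, Finset.mem_univ, true_and] at ha' hb'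
      rw [ha']
      exact lt_of_le_of_ne (ha0 _ (Finset.mem_univ _)) hb'

theorem cov_coef [Fact p.Prime] (hp : 2 < p) (r : ℤ) (hr : (r : ZMod p) ≠ 0) :
    Cov 2 {y : ZMod p → ℝ | coef r y ≠ 0} := by
  refine (cov_argmax (fun y => (coef r y).re) (Complex.continuous_re.comp (continuous_coef r))
    2 hp).mono (fun y hy c => ?_) le_rfl
  by_contra hcon
  obtain ⟨s1, s2, s3, h1, h2, h3, h12, h13, h23⟩ := Finset.two_lt_card_iff.1 (not_le.1 hcon)
  simp only [Finset.mem_filter, Finset.mem_univ, true_and] at h1 h2 h3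
  have key : ∀ s : ZMod p, (coef r (sh s y)).re = c →
      coef r y * chi (-((r : ZMod p) * s)) ^ 2 - 2 * c * chi (-((r : ZMod p) * s)) + (starRingEnd ℂ) (coef r y) = 0 := by
    intro s hs
    have e1 := Complex.add_conj (coef r (sh s y))
    rw [hs, coef_sh, map_mul, chi_conj] at e1
    have e2 := chi_neg_mul (-((r : ZMod p) * s) : ZMod p)
    push_cast at e1
    linear_combination chi (-((r : ZMod p) * s)) * e1 - (starRingEnd ℂ) (coef r y) * e2
  have hinj : ∀ s t : ZMod p, s ≠ t → chi (-((r : ZMod p) * s)) - chi (-((r : ZMod p) * t)) ≠ 0 := by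
    intro s t hst h
    have := chi_inj (sub_eq_zero.1 h)
    exact hst (mul_left_cancel₀ hr (neg_injective this))
  have k1 := key s1 h1
  have k2 := key s2 h2
  have k3 := key s3 h3
  have k12 : coef r y * (chi (-((r : ZMod p) * s1)) + chi (-((r : ZMod p) * s2))) - 2 * c = 0 := by
    apply mul_left_cancel₀ (hinj s1 s2 h12)
    linear_combination k1 - k2
  have k13 : coef r y * (chi (-((r : ZMod p) * s1)) + chi (-((r : ZMod p) * s3))) - 2 * c = 0 := by
    apply mul_left_cancel₀ (hinj s1 s3 h13)
    linear_combination k1 - k3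
  apply hy
  apply mul_left_cancel₀ (hinj s2 s3 h23)
  linear_combination k12 - k13

/-- morphological opening by windows of length `R + 1` -/
noncomputable def opn (R : ℕ) (y : ZMod p → ℝ) : ZMod p → ℝ := fun j =>
  (Finset.range (R + 1)).sup' Finset.nonempty_range_add_one fun i =>
    (Finset.range (R + 1)).inf' Finset.nonempty_range_add_one fun i' => y (j - (i : ℕ) + (i' : ℕ))

omit [NeZero p] in
theorem continuous_opn (R : ℕ) : Continuous (opn (p := p) R) := by
  refine continuous_pi fun j => ?_
  refine Continuous.finset_sup'_apply _ fun i _ => Continuous.finset_inf'_apply _ fun i' _ => ?_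
  exact continuous_apply _

omit [NeZero p] in
theorem opn_sh (R : ℕ) (s : ZMod p) (y : ZMod p → ℝ) : opn R (sh s y) = sh s (opn R y) := by
  funext j
  simp only [opn, sh]
  congr 1
  funext i
  congr 1
  funext i'
  congr 1
  ring

omit [NeZero p] in
theorem lt_opn (R : ℕ) (y : ZMod p → ℝ) (j : ZMod p) (t : ℝ) :
    t < opn R y j ↔ ∃ i < R + 1, ∀ i' < R + 1, t < y (j - (i : ℕ) + (i' : ℕ)) := by
  simp [opn, Finset.lt_sup'_iff, Finset.lt_inf'_iff, -Order.lt_add_one_iff]

/-- Functions with a window of length `R + 1` above `b` and a point below `a < b`. -/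
def Bad (p R : ℕ) (a b : ℝ) : Set (ZMod p → ℝ) :=
  {y | (∃ n, ∀ i < R + 1, b ≤ y (n + (i : ℕ))) ∧ ∃ j, y j ≤ a}

theorem cov_bad [Fact p.Prime] (hp : 2 < p) (R : ℕ) (hR : 1 ≤ R) {a b : ℝ} (hab : a < b) :
    Cov (4 * (p / (R + 1))) (Bad p R a b) := by
  classical
  set M := p / (R + 1) with hM
  have hMp : M < p := Nat.div_lt_self (by omega) (by omega)
  have h1 := cov_biUnion (Finset.range M) (fun _ => 2 + 2)
    (fun r => {y : ZMod p → ℝ | coef (r + 1 : ℕ) y ≠ 0} ∪ {y | coef (-(r + 1 : ℕ)) y ≠ 0})
    (fun r hr => by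
      have hr' : ((r + 1 : ℕ) : ZMod p) ≠ 0 := by
        intro h0
        have := Nat.le_of_dvd (by omega) ((ZMod.natCast_eq_zero_iff _ _).1 h0)
        have := Finset.mem_range.1 hr
        omega
      refine (cov_coef hp _ ?_).union (cov_coef hp _ ?_)
      · rwa [Int.cast_natCast]
      · rwa [Int.cast_neg, Int.cast_natCast, neg_ne_zero])
  let F : (ZMod p → ℝ) → (ZMod p → ℝ) := fun y j => opn R y j - (∑ i, opn R y i) / p
  have hF : Continuous F := by
    have := continuous_opn (p := p) R
    refine continuous_pi fun j => ?_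
    simp only [F]
    fun_prop
  have h2 := h1.preimage F hF 1 one_ne_zero (fun s y => by
    funext j
    simp only [F, opn_sh, one_mul, sh]
    rw [Equiv.sum_comp (Equiv.addRight s) (opn R y) |>.symm]
    rfl)
  refine h2.mono (fun y hy => ?_) (by simp [mul_comm])
  by_contra hcon
  simp only [Set.mem_preimage, Set.mem_iUnion, Set.mem_union, Set.mem_ofPred_eq, not_exists,
    not_or, not_not, Finset.mem_range] at hcon
  have hp0 : (p : ℝ) ≠ 0 := by exact_mod_cast NeZero.ne p
  have hsum : ∑ j, F y j = 0 := by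
    simp only [F, Finset.sum_sub_distrib, Finset.sum_const, Finset.card_univ, ZMod.card,
      nsmul_eq_mul]
    field_simp
    ring
  set t := (∑ i, opn R y i) / p with ht
  let S := Finset.univ.filter fun j => t < opn R y j
  have hz := sturm M S (F y) ?_ ?_ ?_ ?_ ?_
  · obtain ⟨⟨n, hn⟩, j, hj⟩ := hy
    have e1 : (a + b) / 2 < opn R y n := (lt_opn R y n _).2 ⟨0, by omega, fun i' hi' => by
      have := hn i' hi'
      simp only [Nat.cast_zero, sub_zero]
      linarith⟩
    have e2 : ¬ a < opn R y j := by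
      rw [lt_opn]
      rintro ⟨i, hi, h⟩
      have := h i hi
      rw [sub_add_cancel] at this
      linarith
    have e3 := hz n
    have e4 := hz j
    simp only [F] at e3 e4
    linarith [not_lt.1 e2]
  · intro hS
    have : 0 < ∑ j, F y j := Finset.sum_pos (fun j _ => by
      have : j ∈ S := hS ▸ Finset.mem_univ j
      simp only [S, Finset.mem_filter, Finset.mem_univ, true_and] at this
      simp only [F]
      linarith) Finset.univ_nonempty
    linarith
  · rw [hM, Nat.le_div_iff_mul_le (by omega)]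
    refine ends_card (R + 1) S fun j hj => ?_
    simp only [S, Finset.mem_filter, Finset.mem_univ, true_and, lt_opn] at hj ⊢
    obtain ⟨i, hi, h⟩ := hj
    refine ⟨i, hi, fun i' hi' => ⟨i', hi', fun i'' hi'' => ?_⟩⟩
    rw [add_sub_cancel_right]
    exact h i'' hi''
  · intro j hj
    simp only [S, Finset.mem_filter, Finset.mem_univ, true_and] at hj
    simp only [F]
    linarith
  · intro j hj
    simp only [S, Finset.mem_filter, Finset.mem_univ, true_and, not_lt] at hj
    simp only [F]
    linarith
  · intro r hr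
    rcases lt_trichotomy r 0 with h | rfl | h
    · have := (hcon ((-r).toNat - 1) (by have := abs_le.1 hr; omega)).2
      rwa [show -(((-r).toNat - 1 + 1 : ℕ) : ℤ) = r by omega] at this
    · have : ((∑ j, F y j : ℝ) : ℂ) = 0 := by exact_mod_cast hsum
      rw [← this]
      simp [coef, chi_zero]
    · have := (hcon (r.toNat - 1) (by have := abs_le.1 hr; omega)).1
      rwa [show ((r.toNat - 1 + 1 : ℕ) : ℤ) = r by omega] at this

end Pool.Agent.Lib.ZpIndex
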